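import Pool.Agent.MP_acff2a_gt.H47.Perfect

namespace Pool.Agent.MP_acff2a_gt.H47

open Set Topology Filter Cardinal

/-- Points whose first difference with `y` is at position `n`. -/
def Sph (y : C) (n : ℕ) : Set C := {z | (∀ i < n, z i = y i) ∧ z n ≠ y n}

theorem isClopen_Sph (y : C) (n : ℕ) : IsClopen (Sph y n) := by
  have : Sph y n = (⋂ i : Fin n, (fun u : C => u i) ⁻¹' {y i}) ∩ (fun u : C => u n) ⁻¹' {y n}ᶜ := by
    ext u
    simp only [Sph, mem_ofPred_eq, mem_inter_iff, mem_iInter, mem_preimage, mem_singleton_iff,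
      mem_compl_iff]
    constructor
    · rintro ⟨h1, h2⟩; exact ⟨fun i => h1 i i.2, h2⟩
    · rintro ⟨h1, h2⟩; exact ⟨fun i hi => h1 ⟨i, hi⟩, h2⟩
  rw [this]
  refine IsClopen.inter (isClopen_iInter_of_finite fun i => ?_) ?_
  · exact (isClopen_discrete _).preimage (by fun_prop)
  · exact (isClopen_discrete _).preimage (by fun_prop)

theorem exists_Sph {y z : C} (h : z ≠ y) : ∃ n, z ∈ Sph y n := by
  classical
  have hex : ∃ n, z n ≠ y n := by
    by_contra h'
    push Not at h'
    exact h (funext h')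
  refine ⟨Nat.find hex, fun i hi => ?_, Nat.find_spec hex⟩
  have := Nat.find_min hex hi
  push Not at this
  exact this

theorem Sph_unique {y z : C} {n n' : ℕ} (h : z ∈ Sph y n) (h' : z ∈ Sph y n') : n = n' := by
  rcases lt_trichotomy n n' with hl | hl | hl
  · exact (h.2 (h'.1 n hl)).elim
  · exact hl
  · exact (h'.2 (h.1 n' hl)).elim

theorem not_mem_Sph (y : C) (n : ℕ) : y ∉ Sph y n := fun h => h.2 rfl

/-- The compact open neighbourhood of `y` generated by the children function `Ch`. -/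
inductive K (Ch : C → Set C) : C → C → Prop
  | refl (y : C) : K Ch y y
  | step (y c z : C) (n : ℕ) : c ∈ Ch y → c ∈ Sph y n → z ∈ Sph y n → K Ch c z → K Ch y z

theorem K_iff {Ch : C → Set C} {y z : C} {n : ℕ} (hz : z ∈ Sph y n) :
    K Ch y z ↔ ∃ c ∈ Ch y ∩ Sph y n, K Ch c z := by
  constructor
  · intro h
    cases h with
    | refl => exact (not_mem_Sph _ _ hz).elim
    | step _ c _ n' h1 h2 h3 h4 =>
      obtain rfl := Sph_unique hz h3
      exact ⟨c, ⟨h1, h2⟩, h4⟩
  · rintro ⟨c, ⟨h1, h2⟩, h3⟩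
    exact K.step y c z n h1 h2 hz h3

section
variable {Ch : C → Set C} (wf : WellFounded fun c y => c ∈ Ch y)
  (hfin : ∀ y n, (Ch y ∩ Sph y n).Finite)
include wf hfin

theorem K_countable (y : C) : {z | K Ch y z}.Countable := by
  induction y using wf.induction with
  | _ y ih =>
    have : {z | K Ch y z} ⊆ {y} ∪ ⋃ n, ⋃ c ∈ Ch y ∩ Sph y n, {z | K Ch c z} := by
      intro z hz
      by_cases hzy : z = y
      · exact Or.inl hzy
      · obtain ⟨n, hn⟩ := exists_Sph hzy
        obtain ⟨c, hc, hk⟩ := (K_iff hn).1 hz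
        right
        simp only [mem_iUnion]
        exact ⟨n, c, hc, hk⟩
    refine Countable.mono this ((countable_singleton y).union (countable_iUnion fun n => ?_))
    exact (hfin y n).countable.biUnion fun c hc => ih c hc.1

theorem K_closed (y : C) : ∀ z, ¬ K Ch y z → ∀ᶠ u in 𝓝 z, ¬ K Ch y u := by
  induction y using wf.induction with
  | _ y ih =>
    intro z hz
    have hzy : z ≠ y := fun h => hz (h ▸ K.refl _)
    obtain ⟨n, hn⟩ := exists_Sph hzy
    have h1 : ∀ᶠ u in 𝓝 z, u ∈ Sph y n := (isClopen_Sph y n).isOpen.mem_nhds hn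
    have h2 : ∀ᶠ u in 𝓝 z, ∀ c ∈ Ch y ∩ Sph y n, ¬ K Ch c u := by
      rw [eventually_all_finite (hfin y n)]
      intro c hc
      exact ih c hc.1 z fun h => hz ((K_iff hn).2 ⟨c, hc, h⟩)
    filter_upwards [h1, h2] with u hu1 hu2 hk
    obtain ⟨c, hc, hk'⟩ := (K_iff hu1).1 hk
    exact hu2 c hc hk'

theorem K_local (y : C) : ∀ z, K Ch y z → ∀ᶠ u in 𝓝 z, (K Ch y u ↔ K Ch z u) := by
  induction y using wf.induction with
  | _ y ih =>
    intro z hz
    by_cases hzy : z = y
    · subst hzy; exact Eventually.of_forall fun _ => Iff.rfl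
    obtain ⟨n, hn⟩ := exists_Sph hzy
    have h1 : ∀ᶠ u in 𝓝 z, u ∈ Sph y n := (isClopen_Sph y n).isOpen.mem_nhds hn
    have h2 : ∀ᶠ u in 𝓝 z, ∀ c ∈ Ch y ∩ Sph y n, K Ch c u → K Ch z u := by
      rw [eventually_all_finite (hfin y n)]
      intro c hc
      by_cases hk : K Ch c z
      · filter_upwards [ih c hc.1 z hk] with u hu using hu.1
      · filter_upwards [K_closed wf hfin c z hk] with u hu h using (hu h).elim
    obtain ⟨c0, hc0, hk0⟩ := (K_iff hn).1 hz
    filter_upwards [h1, h2, ih c0 hc0.1 z hk0] with u hu1 hu2 hu3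
    rw [K_iff hu1]
    constructor
    · rintro ⟨c, hc, hk⟩
      exact hu2 c hc hk
    · intro h
      exact ⟨c0, hc0, hu3.2 h⟩

end

/-- Sequences of tuples whose closure is not covered by fewer than continuum many hyperplanes. -/
def Good (D : Σ m : ℕ, ℕ → Fin m → C) : Prop :=
  ∀ H : Set C, #H < 𝔠 → ∃ p ∈ closure (range D.2), ∀ i, p i ∉ H

theorem exists_Ch : ∃ Ch : C → Set C, (WellFounded fun c y => c ∈ Ch y) ∧
    (∀ y n, (Ch y ∩ Sph y n).Finite) ∧
    ∀ D : Σ m : ℕ, ℕ → Fin m → C, Good D → ∃ (p : Fin D.1 → C) (d : ℕ → Fin D.1 → C),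
      (∀ k, d k ∈ range D.2) ∧ Tendsto d atTop (𝓝 p) ∧ (∀ k i, d k i ≠ p i) ∧
      ∀ k i, d k i ∈ Ch (p i) := by
  classical
  let ι := {D : Σ m : ℕ, ℕ → Fin m → C // Good D}
  have hι : #ι ≤ 𝔠 := by
    refine (mk_subtype_le _).trans ?_
    rw [mk_sigma]
    refine (sum_le_mk_mul_iSup _).trans ?_
    have : ⨆ m : ℕ, #(ℕ → Fin m → C) ≤ 𝔠 := by
      refine ciSup_le' fun m => ?_
      have h1 : #(Fin m → C) ≤ 𝔠 := by
        rw [← power_def, mk_C]
        refine (power_le_power_left continuum_ne_zero (lt_aleph0_of_finite (Fin m)).le).trans ?_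
        rw [continuum_power_aleph0]
      rw [← power_def]
      refine (power_le_power_right h1).trans ?_
      rw [mk_nat, continuum_power_aleph0]
    refine (mul_le_mul_right this _).trans ?_
    rw [mk_nat, aleph0_mul_continuum]
  obtain ⟨r, p, wf, h1, h2⟩ := exists_choice (α := C) hι
    (fun x => {p : Fin x.1.1 → C // p ∈ closure (range x.1.2)})
    (fun x t => range t.1) (fun x t => countable_range _)
    (fun x => range fun ki : ℕ × Fin x.1.1 => x.1.2 ki.1 ki.2) (fun x => countable_range _)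
    (by
      intro x H hH
      obtain ⟨p, hp, hH⟩ := x.2 H hH
      refine ⟨⟨p, hp⟩, Set.disjoint_left.2 ?_⟩
      rintro _ ⟨i, rfl⟩
      exact hH i)
  have hseq : ∀ x : ι, ∃ d : ℕ → Fin x.1.1 → C, (∀ k, d k ∈ range x.1.2) ∧
      Tendsto d atTop (𝓝 (p x).1) := fun x => mem_closure_iff_seq_limit.1 (p x).2
  choose d hd1 hd2 using hseq
  have hdD : ∀ x k i, d x k i ∈ range fun ki : ℕ × Fin x.1.1 => x.1.2 ki.1 ki.2 := by
    intro x k i
    obtain ⟨j, hj⟩ := hd1 x k
    exact ⟨(j, i), by simp [hj]⟩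
  have hirr : ∀ x, ¬ r x x := fun x => wf.irrefl.irrefl x
  let Ch : C → Set C := fun y => {c | ∃ x i k, (p x).1 i = y ∧ d x k i = c}
  refine ⟨Ch, ⟨fun y => ?_⟩, ?_, ?_⟩
  · have key : ∀ x, ∀ y ∈ range (p x).1, Acc (fun c y => c ∈ Ch y) y := by
      intro x
      induction x using wf.induction with
      | _ x ih =>
        intro y hy
        refine Acc.intro _ ?_
        rintro c ⟨x', i, k, hx', rfl⟩
        obtain rfl : x' = x := h1 _ _ y ⟨i, hx'⟩ hy
        by_cases hc : ∃ x'', d x' k i ∈ range (p x'').1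
        · obtain ⟨x'', hx''⟩ := hc
          exact ih x'' (h2 _ _ _ (hdD x' k i) hx'') _ hx''
        · refine Acc.intro _ ?_
          rintro c ⟨x'', i', k', hx'', rfl⟩
          exact (hc ⟨x'', i', hx''⟩).elim
    by_cases hy : ∃ x, y ∈ range (p x).1
    · obtain ⟨x, hx⟩ := hy
      exact key x y hx
    · refine Acc.intro _ ?_
      rintro c ⟨x, i, k, hx, rfl⟩
      exact (hy ⟨x, i, hx⟩).elim
  · intro y n
    by_cases hy : ∃ x, y ∈ range (p x).1
    · obtain ⟨x, hx⟩ := hy
      have hf : ∀ i, {k | (p x).1 i = y ∧ d x k i ∈ Sph y n}.Finite := by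
        intro i
        by_cases hi : (p x).1 i = y
        · have ht : Tendsto (fun k => d x k i) atTop (𝓝 y) := by
            rw [← hi]
            exact ((continuous_apply i).tendsto _).comp (hd2 x)
          have hev := ht.eventually
            ((isClopen_Sph y n).compl.isOpen.mem_nhds (not_mem_Sph y n))
          rw [← Nat.cofinite_eq_atTop, eventually_cofinite] at hev
          refine hev.subset ?_
          intro k hk
          simpa using hk.2
        · refine finite_empty.subset ?_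
          intro k hk
          exact hi hk.1
      refine (finite_iUnion fun i => (hf i).image fun k => d x k i).subset ?_
      rintro c ⟨⟨x', i, k, hx', rfl⟩, hc⟩
      obtain rfl : x' = x := h1 _ _ y ⟨i, hx'⟩ hx
      exact mem_iUnion.2 ⟨i, k, ⟨hx', hc⟩, rfl⟩
    · refine finite_empty.subset ?_
      rintro c ⟨⟨x, i, k, hx, rfl⟩, -⟩
      exact hy ⟨x, i, hx⟩
  · intro D hD
    refine ⟨(p ⟨D, hD⟩).1, d ⟨D, hD⟩, hd1 ⟨D, hD⟩, hd2 ⟨D, hD⟩, ?_, ?_⟩
    · intro k i h
      exact hirr _ (h2 _ _ _ (hdD ⟨D, hD⟩ k i) ⟨i, h.symm⟩)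
    · intro k i
      exact ⟨⟨D, hD⟩, i, k, rfl, rfl⟩

theorem exists_K : ∃ N : C → Set C, (∀ y, y ∈ N y) ∧ (∀ y, (N y).Countable) ∧
    (∀ y z, z ∉ N y → ∀ᶠ u in 𝓝 z, u ∉ N y) ∧
    (∀ y z, z ∈ N y → ∀ᶠ u in 𝓝 z, (u ∈ N y ↔ u ∈ N z)) ∧
    ∀ (m : ℕ) (J : Type) (s : J → Fin m → C) (B : Set J), ¬ B.Countable →
      ∃ P : Finset C, {j | j ∈ B ∧ ∀ i, ∃ p ∈ P, s j i ∈ N p}.Infinite := by
  classical
  obtain ⟨Ch, wf, hfin, hCh⟩ := exists_Ch
  refine ⟨fun y => {z | K Ch y z}, fun y => K.refl y, K_countable wf hfin, K_closed wf hfin,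
    K_local wf hfin, ?_⟩
  intro m
  induction m with
  | zero =>
    intro J s B hB
    refine ⟨∅, fun h => hB (h.countable.mono ?_)⟩
    intro j hj
    exact ⟨hj, fun i => i.elim0⟩
  | succ m ih =>
    intro J s B hB
    by_cases hc : ∃ i c, ¬ {j | j ∈ B ∧ s j i = c}.Countable
    · obtain ⟨i, c, hic⟩ := hc
      obtain ⟨P, hP⟩ := ih J (fun j => i.removeNth (s j)) _ hic
      refine ⟨insert c P, hP.mono ?_⟩
      rintro j ⟨⟨hjB, hjc⟩, hj⟩
      refine ⟨hjB, fun i' => ?_⟩
      rcases Fin.eq_self_or_eq_succAbove i i' with rfl | ⟨i'', rfl⟩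
      · exact ⟨c, Finset.mem_insert_self _ _, hjc ▸ K.refl _⟩
      · obtain ⟨p, hp, hk⟩ := hj i''
        exact ⟨p, Finset.mem_insert_of_mem hp, hk⟩
    · push Not at hc
      let s' : B → Fin (m + 1) → C := fun j => s j
      have hs' : ∀ i c, {j | s' j i = c}.Countable := by
        intro i c
        have := (hc i c).preimage_of_injOn (f := (Subtype.val : B → J)) Subtype.val_injective.injOn
        refine this.mono ?_
        intro j hj
        exact ⟨j.2, hj⟩
      have hB' : ¬ (univ : Set B).Countable := by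
        rw [countable_univ_iff, countable_coe_iff]; exact hB
      have hne : Nonempty (range s') := by
        have : B.Nonempty := by
          by_contra h
          rw [not_nonempty_iff_eq_empty] at h
          exact hB (h ▸ countable_empty)
        obtain ⟨j, hj⟩ := this
        exact ⟨⟨s' ⟨j, hj⟩, mem_range_self _⟩⟩
      obtain ⟨u, hu⟩ := TopologicalSpace.exists_dense_seq (range s')
      let D : ℕ → Fin (m + 1) → C := fun k => (u k).1
      have hcl : range s' ⊆ closure (range D) := by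
        intro x hx
        have h1 : (⟨x, hx⟩ : range s') ∈ closure (range u) := hu _
        have h2 := (continuous_subtype_val.closure_preimage_subset (range D))
          (closure_mono (by rintro _ ⟨k, rfl⟩; exact ⟨k, rfl⟩) h1)
        exact h2
      have hG : Good ⟨m + 1, D⟩ := by
        intro H hH
        obtain ⟨p, hp, hpH⟩ := exists_avoid s' hs' hB' H hH
        exact ⟨p, closure_minimal hcl isClosed_closure hp, hpH⟩
      obtain ⟨p, d, hd1, hd2, hd3, hd4⟩ := hCh _ hG
      refine ⟨Finset.univ.image p, ?_⟩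
      have hinf : (range d).Infinite := by
        intro hfin'
        have hcl' : IsClosed (range d) := hfin'.isClosed
        have : p ∈ range d := hcl'.mem_of_tendsto hd2 (Eventually.of_forall fun k => ⟨k, rfl⟩)
        obtain ⟨k, hk⟩ := this
        exact hd3 k 0 (by rw [hk])
      refine Infinite.of_image s (hinf.mono ?_)
      rintro _ ⟨k, rfl⟩
      obtain ⟨k', hk'⟩ := hd1 k
      obtain ⟨j, hj⟩ := (u k').2
      have hjd : s j = d k := by rw [← hk']; exact hj
      refine ⟨j, ⟨j.2, fun i => ⟨p i, Finset.mem_image_of_mem _ (Finset.mem_univ i), ?_⟩⟩, hjd⟩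
      obtain ⟨n, hn⟩ := exists_Sph (hd3 k i)
      rw [hjd]
      exact K.step _ _ _ n (hd4 k i) hn hn (K.refl _)

end Pool.Agent.MP_acff2a_gt.H47
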