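import Mathlib

namespace Pool.Agent.MP_acff2a_gt.H47

open Set Topology Filter Cardinal

/-- The Cantor space. -/
abbrev C : Type := ℕ → Bool

theorem mk_C : #C = 𝔠 := by
  simp [C]

theorem split {J : Type} {m : ℕ} (s : J → Fin m → C) (hs : ∀ i c, {j | s j i = c}.Countable)
    (B : Set J) (hB : ¬ B.Countable) :
    ∃ B0 B1 : Set J, B0 ⊆ B ∧ B1 ⊆ B ∧ ¬ B0.Countable ∧ ¬ B1.Countable ∧
      ∀ i, ∀ u ∈ closure (s '' B0), ∀ v ∈ closure (s '' B1), u i ≠ v i := by
  classical
  let N : Set J := {j | j ∈ B ∧ ∃ V ∈ 𝓝 (s j), {j' | j' ∈ B ∧ s j' ∈ V}.Countable}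
  have hN : N.Countable := by
    have hsub : N ⊆ ⋃ b ∈ {b ∈ TopologicalSpace.countableBasis (Fin m → C) |
        {j' | j' ∈ B ∧ s j' ∈ b}.Countable}, {j' | j' ∈ B ∧ s j' ∈ b} := by
      rintro j ⟨hjB, V, hV, hc⟩
      obtain ⟨b, hb, hjb, hbV⟩ :=
        (TopologicalSpace.isBasis_countableBasis (Fin m → C)).mem_nhds_iff.1 hV
      simp only [mem_iUnion]
      refine ⟨b, ⟨hb, hc.mono ?_⟩, hjB, hjb⟩
      rintro j' ⟨h1, h2⟩
      exact ⟨h1, hbV h2⟩
    refine Countable.mono hsub ?_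
    refine Countable.biUnion ((TopologicalSpace.countable_countableBasis _).mono (sep_subset _ _)) ?_
    intro b hb
    exact hb.2
  have h0 : ∃ j0, j0 ∈ B ∧ j0 ∉ N := by
    by_contra h
    push Not at h
    exact hB (hN.mono fun j hj => h j hj)
  obtain ⟨j0, hj0B, hj0N⟩ := h0
  have h1 : ∃ j1, j1 ∈ B ∧ j1 ∉ N ∧ ∀ i, s j1 i ≠ s j0 i := by
    by_contra h
    push Not at h
    apply hB
    have : B ⊆ N ∪ ⋃ i, {j | s j i = s j0 i} := by
      intro j hj
      by_cases hjN : j ∈ N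
      · exact Or.inl hjN
      · obtain ⟨i, hi⟩ := h j hj hjN
        exact Or.inr (mem_iUnion.2 ⟨i, hi⟩)
    exact (hN.union (countable_iUnion fun i => hs i _)).mono this
  obtain ⟨j1, hj1B, hj1N, hne⟩ := h1
  have hk : ∀ i, ∃ k, s j1 i k ≠ s j0 i k := fun i => by
    by_contra h
    push Not at h
    exact hne i (funext h)
  choose k hk using hk
  let V : J → Set (Fin m → C) := fun j => {u | ∀ i, u i (k i) = s j i (k i)}
  have hVc : ∀ j, IsClopen (V j) := by
    intro j
    have : V j = ⋂ i, (fun u : Fin m → C => u i (k i)) ⁻¹' {s j i (k i)} := by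
      ext u; simp [V]
    rw [this]
    refine isClopen_iInter_of_finite fun i => ?_
    exact (isClopen_discrete _).preimage (by fun_prop)
  have hVn : ∀ j, V j ∈ 𝓝 (s j) := fun j => (hVc j).isOpen.mem_nhds (fun i => rfl)
  have hcl : ∀ j, closure (s '' {j' | j' ∈ B ∧ s j' ∈ V j}) ⊆ V j := by
    intro j
    refine closure_minimal ?_ (hVc j).isClosed
    rintro _ ⟨j', hj', rfl⟩
    exact hj'.2
  refine ⟨{j' | j' ∈ B ∧ s j' ∈ V j0}, {j' | j' ∈ B ∧ s j' ∈ V j1}, fun _ h => h.1, fun _ h => h.1,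
    fun h => hj0N ⟨hj0B, _, hVn j0, h⟩, fun h => hj1N ⟨hj1B, _, hVn j1, h⟩, ?_⟩
  intro i u hu v hv huv
  have h1 := hcl j0 hu i
  have h2 := hcl j1 hv i
  apply hk i
  rw [← h1, ← h2, huv]

theorem exists_avoid {J : Type} {m : ℕ} (s : J → Fin m → C)
    (hs : ∀ i c, {j | s j i = c}.Countable)
    (hJ : ¬ (univ : Set J).Countable) (H : Set C) (hH : #H < 𝔠) :
    ∃ p ∈ closure (range s), ∀ i, p i ∉ H := by
  classical
  have hsp : ∀ B : {B : Set J // ¬ B.Countable}, ∃ f : Bool → {B : Set J // ¬ B.Countable},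
      (∀ b, (f b).1 ⊆ B.1) ∧
      ∀ i, ∀ u ∈ closure (s '' (f false).1), ∀ v ∈ closure (s '' (f true).1), u i ≠ v i := by
    intro B
    obtain ⟨B0, B1, h0, h1, c0, c1, h⟩ := split s hs B.1 B.2
    refine ⟨fun b => if b then ⟨B1, c1⟩ else ⟨B0, c0⟩, ?_, ?_⟩
    · intro b; cases b <;> simpa
    · simpa using h
  choose f hf1 hf2 using hsp
  let T : C → ℕ → {B : Set J // ¬ B.Countable} := fun w n =>
    Nat.rec ⟨univ, hJ⟩ (fun n B => f B (w n)) n
  have hT0 : ∀ w, T w 0 = ⟨univ, hJ⟩ := fun w => rfl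
  have hTs : ∀ w n, T w (n + 1) = f (T w n) (w n) := fun w n => rfl
  have hTc : ∀ w w' n, (∀ i < n, w i = w' i) → T w n = T w' n := by
    intro w w' n
    induction n with
    | zero => intro _; rfl
    | succ n ih =>
      intro h
      rw [hTs, hTs, ih (fun i hi => h i (Nat.lt_succ_of_lt hi)), h n (Nat.lt_succ_self n)]
  have hne : ∀ w, (⋂ n, closure (s '' (T w n).1)).Nonempty := by
    intro w
    refine IsCompact.nonempty_iInter_of_sequence_nonempty_isCompact_isClosed _ ?_ ?_ ?_ ?_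
    · intro n
      exact closure_mono (image_mono (hf1 _ _))
    · intro n
      refine Nonempty.closure (Nonempty.image _ ?_)
      by_contra h
      rw [not_nonempty_iff_eq_empty] at h
      exact (T w n).2 (h ▸ countable_empty)
    · exact isClosed_closure.isCompact
    · intro n; exact isClosed_closure
  choose φ hφ using hne
  have hφ' : ∀ w n, φ w ∈ closure (s '' (T w n).1) := fun w n => mem_iInter.1 (hφ w) n
  have hinj : ∀ i, Function.Injective fun w => φ w i := by
    intro i w w' hww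
    by_contra hne
    have hex : ∃ n, w n ≠ w' n := by
      by_contra h
      push Not at h
      exact hne (funext h)
    let n := Nat.find hex
    have hn : w n ≠ w' n := Nat.find_spec hex
    have hlt : ∀ i < n, w i = w' i := fun i hi => by
      have := Nat.find_min hex hi
      push Not at this
      exact this
    have hT := hTc w w' n hlt
    have h1 := hφ' w (n + 1)
    have h2 := hφ' w' (n + 1)
    rw [hTs] at h1 h2
    rw [← hT] at h2
    cases hw : w n <;> cases hw' : w' n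
    · exact hn (hw.trans hw'.symm)
    · rw [hw] at h1; rw [hw'] at h2
      exact hf2 _ i _ h1 _ h2 hww
    · rw [hw] at h1; rw [hw'] at h2
      exact hf2 _ i _ h2 _ h1 hww.symm
    · exact hn (hw.trans hw'.symm)
  have hbad : #(⋃ i, (fun w => φ w i) ⁻¹' H : Set C) < 𝔠 := by
    refine lt_of_le_of_lt (mk_iUnion_le _) ?_
    refine mul_lt_of_lt aleph0_le_continuum ?_ ?_
    · exact lt_of_lt_of_le (lt_aleph0_of_finite _) aleph0_le_continuum
    · refine lt_of_le_of_lt (ciSup_le' fun i => mk_preimage_of_injective _ _ (hinj i)) hH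
  have : ∃ w, w ∉ (⋃ i, (fun w => φ w i) ⁻¹' H : Set C) := by
    by_contra h
    push Not at h
    rw [eq_univ_of_forall h, mk_univ, mk_C] at hbad
    exact lt_irrefl _ hbad
  obtain ⟨w, hw⟩ := this
  refine ⟨φ w, ?_, fun i hi => hw (mem_iUnion.2 ⟨i, hi⟩)⟩
  have := hφ' w 0
  rw [hT0] at this
  simpa using this

theorem exists_choice {ι α : Type} (hι : #ι ≤ 𝔠) (T : ι → Type) (co : ∀ x, T x → Set α)
    (hco : ∀ x t, (co x t).Countable) (D : ι → Set α) (hD : ∀ x, (D x).Countable)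
    (hT : ∀ x (H : Set α), #H < 𝔠 → ∃ t : T x, Disjoint (co x t) H) :
    ∃ (r : ι → ι → Prop) (p : ∀ x, T x), WellFounded r ∧
      (∀ x x' z, z ∈ co x (p x) → z ∈ co x' (p x') → x = x') ∧
      (∀ x x' z, z ∈ D x → z ∈ co x' (p x') → r x' x) := by
  classical
  obtain ⟨r, wo, hr⟩ := Cardinal.exists_ord_eq ι
  have hseg : ∀ x, #{x' // r x' x} < 𝔠 := by
    intro x
    have := Cardinal.card_typein_lt (r := r) x hr
    rw [Ordinal.card_typein] at this
    exact lt_of_lt_of_le this hι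
  let Hs : ∀ x, (∀ x', r x' x → T x') → Set α := fun x prev =>
    D x ∪ ⋃ x' : {x' // r x' x}, (D x'.1 ∪ co x'.1 (prev x'.1 x'.2))
  have hHs : ∀ x prev, #(Hs x prev) < 𝔠 := by
    intro x prev
    refine lt_of_le_of_lt (mk_union_le _ _) ?_
    refine add_lt_of_lt aleph0_le_continuum ?_ ?_
    · exact lt_of_le_of_lt (hD x).le_aleph0 aleph0_lt_continuum
    · refine lt_of_le_of_lt (mk_iUnion_le _) ?_
      refine mul_lt_of_lt aleph0_le_continuum (hseg x) ?_
      refine lt_of_le_of_lt (ciSup_le' fun i => ?_) aleph0_lt_continuum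
      exact ((hD _).union (hco _ _)).le_aleph0
  have hF0 : ∀ x (prev : ∀ x', r x' x → T x'), ∃ t : T x, Disjoint (co x t) (Hs x prev) :=
    fun x prev => hT x _ (hHs x prev)
  choose F hF using hF0
  have wf : WellFounded r := wo.wf
  obtain ⟨p, hp⟩ : ∃ p : ∀ x, T x, ∀ x, p x = F x (fun x' _ => p x') :=
    ⟨wf.fix F, fun x => wf.fix_eq F x⟩
  have hdis : ∀ x, Disjoint (co x (p x)) (Hs x (fun x' _ => p x')) := fun x => by
    have := hF x (fun x' _ => p x')
    rw [← hp x] at this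
    exact this
  have hA : ∀ x x' z, r x' x → z ∈ co x (p x) → z ∈ D x' ∪ co x' (p x') → False := by
    intro x x' z h h1 h2
    refine Set.disjoint_left.1 (hdis x) h1 (Or.inr ?_)
    exact mem_iUnion.2 ⟨⟨x', h⟩, h2⟩
  refine ⟨r, p, wf, ?_, ?_⟩
  · intro x x' z h1 h2
    rcases trichotomous_of r x x' with h | h | h
    · exact (hA x' x z h h2 (Or.inr h1)).elim
    · exact h
    · exact (hA x x' z h h1 (Or.inr h2)).elim
  · intro x x' z h1 h2
    rcases trichotomous_of r x x' with h | h | h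
    · exact (hA x' x z h h2 (Or.inl h1)).elim
    · subst h
      exact (Set.disjoint_left.1 (hdis x) h2 (Or.inl h1)).elim
    · exact h

end Pool.Agent.MP_acff2a_gt.H47
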