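import Pool.Agent.MP_acff2a_gt.H47.Nbhd

namespace Pool.Agent.MP_acff2a_gt.H47

open Set Topology Filter Cardinal TopologicalSpace

/-- The duplicate of the Cantor space attached to the neighbourhood assignment `N`. -/
structure X (N : C → Set C) : Type where
  pt : C
  up : Bool

open Classical in
/-- Indicator of the set `N p` on the upper level. -/
noncomputable def ind (N : C → Set C) (p : C) (x : X N) : Bool := x.up && decide (x.pt ∈ N p)

/-- The coordinates that define the topology. -/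
noncomputable def emb (N : C → Set C) (x : X N) : C × (C → Bool) := (x.pt, fun p => ind N p x)

noncomputable instance topX (N : C → Set C) : TopologicalSpace (X N) := induced (emb N) inferInstance

theorem continuous_emb (N : C → Set C) : Continuous (emb N) := continuous_induced_dom

theorem continuous_pt (N : C → Set C) : Continuous (X.pt : X N → C) :=
  continuous_fst.comp (continuous_emb N)

theorem continuous_ind (N : C → Set C) (p : C) : Continuous (ind N p) :=
  (continuous_apply p).comp (continuous_snd.comp (continuous_emb N))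

section
variable {N : C → Set C} (h1 : ∀ y, y ∈ N y)
include h1

theorem ind_self (x : X N) : ind N x.pt x = x.up := by
  simp [ind, h1]

theorem t2 : T2Space (X N) := by
  have hinj : Function.Injective (emb N) := by
    intro x y h
    have hp : x.pt = y.pt := congrArg Prod.fst h
    have hi : ind N x.pt x = ind N x.pt y := congrFun (congrArg Prod.snd h) x.pt
    rw [ind_self h1, hp, ind_self h1] at hi
    cases x; cases y
    simp_all
  exact (IsEmbedding.mk ⟨rfl⟩ hinj).t2Space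

variable (h3 : ∀ y z, z ∉ N y → ∀ᶠ u in 𝓝 z, u ∉ N y)
  (h4 : ∀ y z, z ∈ N y → ∀ᶠ u in 𝓝 z, (u ∈ N y ↔ u ∈ N z))
include h3 h4

theorem nhds_eq (x : X N) :
    𝓝 x = comap X.pt (𝓝 x.pt) ⊓ 𝓟 {u | ind N x.pt u = x.up} := by
  apply le_antisymm
  · refine le_inf ((continuous_pt N).tendsto x).le_comap ?_
    rw [le_principal_iff]
    have : IsOpen ((ind N x.pt) ⁻¹' {x.up}) :=
      (isOpen_discrete _).preimage (continuous_ind N x.pt)
    exact this.mem_nhds (ind_self h1 x)
  · rw [nhds_induced (emb N) x, ← tendsto_iff_comap]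
    have ht : Tendsto X.pt (comap X.pt (𝓝 x.pt) ⊓ 𝓟 {u : X N | ind N x.pt u = x.up}) (𝓝 x.pt) :=
      tendsto_comap.mono_left inf_le_left
    refine Tendsto.prodMk_nhds ht ?_
    rw [tendsto_pi_nhds]
    intro p
    rw [nhds_discrete Bool, tendsto_pure]
    have hs : ∀ᶠ u in comap X.pt (𝓝 x.pt) ⊓ 𝓟 {u : X N | ind N x.pt u = x.up},
        ind N x.pt u = x.up := mem_inf_of_right (mem_principal_self _)
    by_cases hp : x.pt ∈ N p
    · filter_upwards [hs, ht.eventually (h4 p x.pt hp)] with u hu1 hu2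
      have e1 : ind N p u = ind N x.pt u := by
        unfold ind
        rw [propext hu2]
      have e2 : ind N p x = x.up := by simp [ind, hp]
      rw [e1, e2, hu1]
    · filter_upwards [ht.eventually (h3 p x.pt hp)] with u hu
      simp [ind, hu, hp]

theorem firstCountable : FirstCountableTopology (X N) :=
  ⟨fun x => by rw [nhds_eq h1 h3 h4 x]; infer_instance⟩

theorem compact : CompactSpace (X N) := by
  refine ⟨isCompact_iff_ultrafilter_le_nhds.2 fun f _ => ?_⟩
  obtain ⟨z, -, hz⟩ := isCompact_univ.ultrafilter_le_nhds (f.map X.pt) (by simp)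
  have hb : ∃ b, {u | ind N z u = b} ∈ f := by
    rcases f.mem_or_compl_mem {u | ind N z u = true} with h | h
    · exact ⟨true, h⟩
    · refine ⟨false, ?_⟩
      convert h using 1
      ext u; simp
  obtain ⟨b, hb⟩ := hb
  refine ⟨⟨z, b⟩, mem_univ _, ?_⟩
  rw [nhds_eq h1 h3 h4]
  exact le_inf (Filter.map_le_iff_le_comap.1 hz) (le_principal_iff.2 hb)

theorem not_metrizable (h2 : ∀ y, (N y).Countable) : ¬ MetrizableSpace (X N) := by
  intro hm
  have := compact h1 h3 h4
  have : SecondCountableTopology (X N) := inferInstance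
  obtain ⟨T, hT, hU⟩ := isOpen_iUnion_countable (fun p : C => (ind N p) ⁻¹' {true})
    (fun p => (isOpen_discrete _).preimage (continuous_ind N p))
  have : (univ : Set C) ⊆ ⋃ p ∈ T, N p := by
    intro y _
    have hy : (⟨y, true⟩ : X N) ∈ ⋃ p : C, (ind N p) ⁻¹' {true} :=
      mem_iUnion.2 ⟨y, ind_self h1 ⟨y, true⟩⟩
    rw [← hU] at hy
    simp only [mem_iUnion] at hy ⊢
    obtain ⟨p, hp, hy⟩ := hy
    refine ⟨p, hp, ?_⟩
    simpa [ind] using hy
  have hc : (univ : Set C).Countable := (hT.biUnion fun p _ => h2 p).mono this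
  have := hc.le_aleph0
  rw [mk_univ, mk_C] at this
  exact absurd this (not_le.2 aleph0_lt_continuum)

end

/-- The retraction onto the product attached to a finite set `P`. -/
noncomputable def retr (N : C → Set C) (P : Finset C) (x : X N) : C × Bool :=
  (x.pt, decide (∃ p ∈ P, ind N p x = true))

theorem continuous_retr (N : C → Set C) (P : Finset C) : Continuous (retr N P) := by
  refine (continuous_pt N).prodMk ?_
  have : (fun x : X N => decide (∃ p ∈ P, ind N p x = true)) =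
      (fun v : P → Bool => decide (∃ p, v p = true)) ∘ fun x p => ind N p.1 x := by
    funext x
    simp
  rw [this]
  exact continuous_of_discreteTopology.comp (continuous_pi fun p => continuous_ind N p.1)

theorem retr_eq {N : C → Set C} {P : Finset C} {y : C} (h : ∃ p ∈ P, y ∈ N p) (b : Bool) :
    retr N P ⟨y, b⟩ = (y, b) := by
  obtain ⟨p, hp, hy⟩ := h
  cases b
  · simp [retr, ind]
  · simp only [retr, ind, Bool.true_and, decide_eq_true_eq, Prod.mk.injEq, true_and]
    exact ⟨p, hp, hy⟩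

theorem basic {N : C → Set C} {Q : Set C(C × Bool, ℝ)} (hQ : Dense Q) (U : Set C(X N, ℝ))
    (hU : @IsOpen C(X N, ℝ)
      (TopologicalSpace.induced (fun f : C(X N, ℝ) => (f : X N → ℝ)) inferInstance) U)
    (hne : U.Nonempty) :
    ∃ (m : ℕ) (s : Fin m → C) (ρ : Q), ∀ g : C(X N, ℝ),
      (∀ i b, g ⟨s i, b⟩ = ρ.1 (s i, b)) → g ∈ U := by
  classical
  obtain ⟨f, hf⟩ := hne
  obtain ⟨V, hV, rfl⟩ := (@isOpen_induced_iff _ _ _ U _).1 hU
  obtain ⟨I, u, hu, hI⟩ := isOpen_pi_iff.1 hV _ hf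
  let S : Set (C × Bool) := (fun x : X N => (x.pt, x.up)) '' I
  have hSf : S.Finite := I.finite_toSet.image _
  have : Finite S := hSf
  let f0 : C(S, ℝ) := ⟨fun y => f ⟨y.1.1, y.1.2⟩, continuous_of_discreteTopology⟩
  obtain ⟨h, hh⟩ := f0.exists_restrict_eq hSf.isClosed
  have hO : IsOpen {k : C(C × Bool, ℝ) | ∀ x ∈ I, k (x.pt, x.up) ∈ u x} := by
    have : {k : C(C × Bool, ℝ) | ∀ x ∈ I, k (x.pt, x.up) ∈ u x} =
        ⋂ x ∈ I, (fun k : C(C × Bool, ℝ) => k (x.pt, x.up)) ⁻¹' u x := by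
      ext k; simp
    rw [this]
    refine isOpen_biInter_finset fun x hx => (hu x hx).1.preimage ?_
    exact continuous_eval_const _
  have hhO : h ∈ {k : C(C × Bool, ℝ) | ∀ x ∈ I, k (x.pt, x.up) ∈ u x} := by
    intro x hx
    have := congrArg (fun k : C(S, ℝ) => k ⟨(x.pt, x.up), x, hx, rfl⟩) hh
    simp only [ContinuousMap.restrict_apply] at this
    rw [this]
    exact (hu x hx).2
  obtain ⟨ρ, hρQ, hρ⟩ := hQ.exists_mem_open hO ⟨h, hhO⟩
  refine ⟨I.card, fun i => (I.equivFin.symm i).1.pt, ⟨ρ, hρQ⟩, fun g hg => hI ?_⟩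
  intro x hx
  have := hg (I.equivFin ⟨x, hx⟩) x.up
  simp only [Equiv.symm_apply_apply] at this
  show g x ∈ u x
  rw [show g x = g ⟨x.pt, x.up⟩ from rfl, this]
  exact hρ x hx

theorem pointFinite {N : C → Set C}
    (h5 : ∀ (m : ℕ) (J : Type) (s : J → Fin m → C) (B : Set J), ¬ B.Countable →
      ∃ P : Finset C, {j | j ∈ B ∧ ∀ i, ∃ p ∈ P, s j i ∈ N p}.Infinite)
    (F : Set (Set C(X N, ℝ)))
    (hF : ∀ U ∈ F, @IsOpen C(X N, ℝ)
      (TopologicalSpace.induced (fun f : C(X N, ℝ) => (f : X N → ℝ)) inferInstance) U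
        ∧ U.Nonempty)
    (hfin : ∀ f : C(X N, ℝ), {U | U ∈ F ∧ f ∈ U}.Finite) : F.Countable := by
  classical
  by_contra hc
  obtain ⟨Q, hQc, hQ⟩ := exists_countable_dense C(C × Bool, ℝ)
  have : Countable Q := hQc
  have hb : ∀ U : F, ∃ (m : ℕ) (s : Fin m → C) (ρ : Q), ∀ g : C(X N, ℝ),
      (∀ i b, g ⟨s i, b⟩ = ρ.1 (s i, b)) → g ∈ U.1 :=
    fun U => basic hQ U.1 (hF U.1 U.2).1 (hF U.1 U.2).2
  have hex : ∃ (m : ℕ) (ρ : Q), ¬ {U : F | ∃ s : Fin m → C, ∀ g : C(X N, ℝ),
      (∀ i b, g ⟨s i, b⟩ = ρ.1 (s i, b)) → g ∈ U.1}.Countable := by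
    by_contra h
    push Not at h
    apply hc
    rw [← countable_coe_iff, ← countable_univ_iff]
    refine (countable_iUnion fun m => countable_iUnion fun ρ => h m ρ).mono ?_
    intro U _
    obtain ⟨m, s, ρ, hU⟩ := hb U
    simp only [mem_iUnion]
    exact ⟨m, ρ, s, hU⟩
  obtain ⟨m, ρ, hB⟩ := hex
  have hs : ∀ U : F, ∃ s : Fin m → C, (∃ s : Fin m → C, ∀ g : C(X N, ℝ),
      (∀ i b, g ⟨s i, b⟩ = ρ.1 (s i, b)) → g ∈ U.1) → ∀ g : C(X N, ℝ),
      (∀ i b, g ⟨s i, b⟩ = ρ.1 (s i, b)) → g ∈ U.1 := by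
    intro U
    by_cases h : ∃ s : Fin m → C, ∀ g : C(X N, ℝ),
      (∀ i b, g ⟨s i, b⟩ = ρ.1 (s i, b)) → g ∈ U.1
    · obtain ⟨s, hs⟩ := h
      exact ⟨s, fun _ => hs⟩
    · exact ⟨fun _ _ => true, fun h' => (h h').elim⟩
  choose s hs using hs
  obtain ⟨P, hP⟩ := h5 m F s _ hB
  let g : C(X N, ℝ) := ρ.1.comp ⟨retr N P, continuous_retr N P⟩
  apply hP
  refine Finite.of_finite_image (f := Subtype.val) ((hfin g).subset ?_)
    Subtype.val_injective.injOn
  rintro _ ⟨U, ⟨hU1, hU2⟩, rfl⟩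
  refine ⟨U.2, hs U hU1 g fun i b => ?_⟩
  show ρ.1 (retr N P ⟨s U i, b⟩) = _
  rw [retr_eq (hU2 i)]

end Pool.Agent.MP_acff2a_gt.H47
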